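import Pool.Agent.Helper15.TS.St

/-!
# Project TS, module GENA: a generic positive combination avoiding finitely many subspaces
-/

set_option autoImplicit false

namespace Pool.Agent.Helper28.TS

open Pool.Agent.Helper22.FL Pool.Agent.Helper22.CS Pool.Agent.Helper15.TS

theorem stgena : StGENA := by
  intro n P 𝒱
  classical
  induction P using Finset.induction_on with
  | empty => exact ⟨fun _ => 1, fun _ => le_rfl, fun V _ _ p hp => absurd hp (Finset.notMem_empty p)⟩
  | insert q P hq ih =>
    obtain ⟨t, ht1, ht2⟩ := ih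
    have hbad : ∀ V ∈ 𝒱, ({m : ℕ | toQ ((∑ p ∈ P, t p • p) + m • q) ∈ V ∧
        ¬ ∀ p ∈ insert q P, toQ p ∈ V}).Subsingleton := by
      intro V hV m hm m' hm'
      by_contra hne
      apply hm.2
      have hq' : toQ q ∈ V := by
        have h1 : toQ ((∑ p ∈ P, t p • p) + m • q) - toQ ((∑ p ∈ P, t p • p) + m' • q) =
            ((m : ℚ) - m') • toQ q := by
          funext i
          simp only [toQ, Pi.sub_apply, Pi.add_apply, Pi.smul_apply, smul_eq_mul, Nat.cast_add, Nat.cast_mul]
          ring
        have h2 := V.sub_mem hm.1 hm'.1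
        rw [h1] at h2
        exact (V.smul_mem_iff (sub_ne_zero.2 (by exact_mod_cast hne))).1 h2
      have hx' : toQ (∑ p ∈ P, t p • p) ∈ V := by
        have h1 : toQ ((∑ p ∈ P, t p • p) + m • q) - (m : ℚ) • toQ q = toQ (∑ p ∈ P, t p • p) := by
          funext i
          simp only [toQ, Pi.sub_apply, Pi.add_apply, Pi.smul_apply, smul_eq_mul, Nat.cast_add, Nat.cast_mul]
          ring
        rw [← h1]
        exact V.sub_mem hm.1 (V.smul_mem _ hq')
      intro p hp
      rcases Finset.mem_insert.1 hp with rfl | hp
      · exact hq'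
      · exact ht2 V hV hx' p hp
    have hfin : (⋃ V ∈ 𝒱, {m : ℕ | toQ ((∑ p ∈ P, t p • p) + m • q) ∈ V ∧
        ¬ ∀ p ∈ insert q P, toQ p ∈ V}).Finite :=
      Set.Finite.biUnion 𝒱.finite_toSet (fun V hV => (hbad V hV).finite)
    obtain ⟨m, hm1, hm2⟩ := (Set.Ici_infinite 1).exists_notMem_finite hfin
    refine ⟨Function.update t q m, ?_, ?_⟩
    · intro p
      by_cases hp : p = q
      · subst hp
        rw [Function.update_self]
        exact hm1
      · rw [Function.update_of_ne hp]
        exact ht1 p
    · intro V hV hmem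
      by_contra hcon
      apply hm2
      rw [Set.mem_iUnion₂]
      refine ⟨V, hV, ?_, hcon⟩
      have h1 : ∑ p ∈ insert q P, Function.update t q m p • p = (∑ p ∈ P, t p • p) + m • q := by
        rw [Finset.sum_insert hq, Function.update_self, add_comm]
        congr 1
        apply Finset.sum_congr rfl
        intro p hp
        have hpq : p ≠ q := fun h => hq (h ▸ hp)
        rw [Function.update_of_ne hpq]
      rw [h1] at hmem
      exact hmem

end Pool.Agent.Helper28.TS
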